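import Mathlib
import Pool.Agent.Lib.MP_94ab62_ntU.Mult

/-!
# The multiplicity of a Markoff number
-/

/-- Every Markoff number `m` is the largest entry of at most `C (log log m)²` Markoff triples. -/
theorem Pool.Agent.Results.MP_94ab62_nt.Multiplicity.result :
    ∃ C : ℝ, 0 < C ∧ ∀ m : ℕ, 5 ≤ m →
    (({q : ℕ × ℕ | 0 < q.1 ∧ q.1 ≤ q.2 ∧ q.2 ≤ m ∧
        q.1 ^ 2 + q.2 ^ 2 + m ^ 2 = 3 * q.1 * q.2 * m}.ncard : ℕ) : ℝ) ≤
      C * (Real.log (Real.log m)) ^ 2 :=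
  Pool.Agent.Lib.MP_94ab62_ntU.mult_pairs
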