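import Mathlib
import Pool.Agent.Lib.MP_94ab62_nt.Stmt
import Pool.Agent.Lib.MP_94ab62_ntZ.End

/-!
# The nth Markoff number is asymptotic to (1/3) A^√n
-/

open Filter Topology
open Pool.Agent.Lib.MP_94ab62_nt

theorem Pool.Agent.Results.MP_94ab62_nt.NthMarkoffNumber.result :
    ∃ C : ℝ, 0 < C ∧
    -- `C` is the limit of `M(N) / (log N)²`
    Tendsto (fun N : ℕ => (tripleCount N : ℝ) / (Real.log N) ^ 2) atTop (𝓝 C) ∧
    -- the `n`th Markoff number is `(1/3 + o(1)) A^√n`, `A = e^(1/√C)`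
    Tendsto (fun n : ℕ => (Nat.nth IsMarkoff n : ℝ) / Real.exp (Real.sqrt n / Real.sqrt C)) atTop
      (𝓝 (1 / 3)) ∧
    -- the number of Markoff numbers up to `N` is `C (log 3N)² + o(log N)`
    (fun N : ℕ => (numberCount N : ℝ) - C * (Real.log (3 * N)) ^ 2) =o[atTop]
      (fun N : ℕ => Real.log N) ∧
    -- uniqueness fails at most `O((log N)^(1 - 1/1000))` times up to `N`
    (fun N : ℕ => (tripleCount N : ℝ) - numberCount N) =O[atTop]
      (fun N : ℕ => (Real.log N) ^ ((1 : ℝ) - 1 / 1000)) ∧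
    -- `M(N) = C (log 3N)² + o(log N)`
    (fun N : ℕ => (tripleCount N : ℝ) - C * (Real.log (3 * N)) ^ 2) =o[atTop]
      (fun N : ℕ => Real.log N) ∧
    -- the largest entry of the `n`th triple is `(1/3 + o(1)) A^√n`
    Tendsto (fun n : ℕ => (tripleMax n : ℝ) / Real.exp (Real.sqrt n / Real.sqrt C)) atTop
      (𝓝 (1 / 3)) ∧
    -- the interval `(N, tN]` contains `(2 C log t + o(1)) log N` Markoff numbers
    (∀ t : ℝ, 1 < t → Tendsto
      (fun N : ℕ => ((numberCount ⌊t * N⌋₊ : ℝ) - numberCount N) / Real.log N) atTop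
      (𝓝 (2 * C * Real.log t))) :=
  Pool.Agent.Lib.MP_94ab62_ntZ.end_theorem
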